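import Mathlib
import Pool.Agent.H.MP_e86704_lc.B

namespace Pool.Agent.Results.MP_e86704_lc.Uncountable

def IsCut {T : Type} [LinearOrder T] (A B : Set T) : Prop :=
  A.Nonempty ∧ B.Nonempty ∧ (∀ a ∈ A, ∀ b ∈ B, a < b) ∧
    (∀ a ∈ A, ∃ a' ∈ A, a < a') ∧ (∀ b ∈ B, ∃ b' ∈ B, b' < b) ∧
    (A ∪ B = Set.univ ∨
      ∃ r, (∀ a ∈ A, a < r) ∧ (∀ b ∈ B, r < b) ∧ A ∪ {r} ∪ B = Set.univ)

def characters (T : Type) [LinearOrder T] : Set (ℕ × ℕ) :=
  {p | ∃ A B : Set T, IsCut A B ∧ Order.cof A = Cardinal.aleph (p.1 : Ordinal) ∧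
    Order.cof (B)ᵒᵈ = Cardinal.aleph (p.2 : Ordinal)}

def TwoHomogeneous (T : Type) [LinearOrder T] : Prop :=
  ∀ a b c d : T, a < b → c < d → Nonempty (Set.Icc a b ≃o Set.Icc c d)

def Realizable (C : Set (ℕ × ℕ)) : Prop :=
  ∃ (T : Type) (_ : LinearOrder T), Nontrivial T ∧ DenselyOrdered T ∧ TwoHomogeneous T ∧
    characters T = C

theorem result : ¬ {C : Set (ℕ × ℕ) | Realizable C}.Countable := by
  intro h
  have hinj : Function.Injective fun S : Set ℕ => characters (H.MP_e86704_lc.K S) := by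
    intro S S' hS
    ext n
    rw [← H.MP_e86704_lc.diag_iff S n, ← H.MP_e86704_lc.diag_iff S' n]
    exact Set.ext_iff.1 hS (n + 1, n + 1)
  have hc : (Set.univ : Set (Set ℕ)).Countable :=
    (h.preimage_of_injOn hinj.injOn).mono fun S _ =>
      (⟨H.MP_e86704_lc.K S, inferInstance, inferInstance, inferInstance,
        fun a b c d h1 h2 => H.MP_e86704_lc.homog a b c d h1 h2, rfl⟩ :
        Realizable (characters (H.MP_e86704_lc.K S)))
  rw [Set.countable_univ_iff] at hc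
  obtain ⟨f, hf⟩ := exists_surjective_nat (Set ℕ)
  exact Function.cantor_surjective f hf

end Pool.Agent.Results.MP_e86704_lc.Uncountable
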